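import Pool.Agent.Borsuk22.Spectral

/-!
# Point sets of diameter at most one: odd components of the complement of the diameter graph
-/

namespace Borsuk22

open Matrix Finset

variable {d : ℕ}

/-- The matrix with entries `1 - |q_i - q_j|^2` off the diagonal and zero on the diagonal. -/
noncomputable def amat {ι : Type*} [DecidableEq ι] (q : ι → EuclideanSpace ℝ (Fin d)) :
    Matrix ι ι ℝ :=
  fun i j => if i = j then 0 else 1 - dist (q i) (q j) ^ 2

/-- The quadratic form with matrix `1 - |q_i - q_j|^2`. -/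
noncomputable def bform {ι : Type*} [Fintype ι] (q : ι → EuclideanSpace ℝ (Fin d))
    (z : ι → ℝ) : ℝ :=
  ∑ i, ∑ j, z i * z j * (1 - dist (q i) (q j) ^ 2)

/-- Sum over ordered triples. -/
noncomputable def trip {ι : Type*} [Fintype ι] [DecidableEq ι]
    (q : ι → EuclideanSpace ℝ (Fin d)) : ℝ :=
  ∑ i, ∑ j, ∑ k, amat q i j * amat q j k * amat q k i

section
variable {ι : Type*} [Fintype ι] [DecidableEq ι] (q : ι → EuclideanSpace ℝ (Fin d))

lemma trip_eq_trace : trip q = (amat q * amat q * amat q).trace := by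
  simp only [trip, Matrix.trace, Matrix.diag, Matrix.mul_apply]
  refine Finset.sum_congr rfl fun i _ => ?_
  rw [Finset.sum_comm]
  refine Finset.sum_congr rfl fun k _ => ?_
  rw [Finset.sum_mul]

lemma amat_symm (i j : ι) : amat q i j = amat q j i := by
  unfold amat
  by_cases h : i = j
  · simp [h]
  · simp [h, Ne.symm h, dist_comm]

lemma amat_nonneg (hq : ∀ i j, dist (q i) (q j) ≤ 1) (i j : ι) : 0 ≤ amat q i j := by
  unfold amat
  split_ifs
  · exact le_rfl
  · have := hq i j
    have h0 : 0 ≤ dist (q i) (q j) := dist_nonneg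
    nlinarith

lemma bform_eq_amat (z : ι → ℝ) : bform q z = z ⬝ᵥ z + z ⬝ᵥ (amat q *ᵥ z) := by
  simp only [bform, dotProduct, mulVec, Finset.mul_sum]
  rw [← Finset.sum_add_distrib]
  refine Finset.sum_congr rfl fun i _ => ?_
  have : z i * z i = ∑ j, if i = j then z i * z j else 0 := by simp
  rw [this, ← Finset.sum_add_distrib]
  refine Finset.sum_congr rfl fun j _ => ?_
  unfold amat
  by_cases h : i = j
  · subst h; simp
  · simp [h]; ring

end

lemma bform_expand {ι : Type*} [Fintype ι] (q : ι → EuclideanSpace ℝ (Fin d)) (z : ι → ℝ) :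
    bform q z = 2 * ‖∑ i, z i • q i‖ ^ 2 + (∑ i, z i) ^ 2
      - 2 * (∑ i, z i) * ∑ i, z i * ‖q i‖ ^ 2 := by
  have h1 : ‖∑ i, z i • q i‖ ^ 2 = ∑ i, ∑ j, z i * z j * inner ℝ (q i) (q j) := by
    rw [← real_inner_self_eq_norm_sq, sum_inner]
    refine Finset.sum_congr rfl fun i _ => ?_
    rw [inner_sum]
    refine Finset.sum_congr rfl fun j _ => ?_
    rw [inner_smul_left, inner_smul_right]
    simp
    ring
  have h2 : (∑ i, z i) ^ 2 = ∑ i, ∑ j, z i * z j := by
    rw [sq, Finset.sum_mul_sum]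
  have h3 : (∑ i, z i) * ∑ i, z i * ‖q i‖ ^ 2 = ∑ i, ∑ j, z i * (z j * ‖q j‖ ^ 2) := by
    rw [Finset.sum_mul_sum]
  have h4 : (∑ i, z i) * ∑ i, z i * ‖q i‖ ^ 2 = ∑ i, ∑ j, z j * (z i * ‖q i‖ ^ 2) := by
    rw [Finset.sum_mul_sum, Finset.sum_comm]
  have h5 : 2 * (∑ i, z i) * ∑ i, z i * ‖q i‖ ^ 2 =
      (∑ i, ∑ j, z i * (z j * ‖q j‖ ^ 2)) + ∑ i, ∑ j, z j * (z i * ‖q i‖ ^ 2) := by
    rw [← h3, ← h4]; ring
  rw [h1, h2, h5, Finset.mul_sum, ← Finset.sum_add_distrib, ← Finset.sum_add_distrib,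
    ← Finset.sum_sub_distrib]
  refine Finset.sum_congr rfl fun i _ => ?_
  rw [Finset.mul_sum, ← Finset.sum_add_distrib, ← Finset.sum_add_distrib,
    ← Finset.sum_sub_distrib]
  refine Finset.sum_congr rfl fun j _ => ?_
  rw [dist_eq_norm, @norm_sub_sq_real]
  ring

lemma bform_nonneg {ι : Type*} [Fintype ι] (q : ι → EuclideanSpace ℝ (Fin d)) (z : ι → ℝ)
    (hz : ∑ i, z i = 0) : 0 ≤ bform q z := by
  rw [bform_expand, hz]
  have : 0 ≤ ‖∑ i, z i • q i‖ ^ 2 := sq_nonneg _
  nlinarith

/-- A subspace on which the form is positive definite has dimension at most `d + 1`. -/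
lemma finrank_le {ι : Type*} [Fintype ι] (q : ι → EuclideanSpace ℝ (Fin d))
    {X : Type*} [AddCommGroup X] [Module ℝ X] [FiniteDimensional ℝ X]
    (Φ : X →ₗ[ℝ] (ι → ℝ)) (hΦ : ∀ x, x ≠ 0 → 0 < bform q (Φ x)) :
    Module.finrank ℝ X ≤ d + 1 := by
  let L : (ι → ℝ) →ₗ[ℝ] (EuclideanSpace ℝ (Fin d) × ℝ) :=
    { toFun := fun z => (∑ i, z i • q i, ∑ i, z i * (3 / 2 - ‖q i‖ ^ 2))
      map_add' := by
        intro x y
        simp only [Pi.add_apply, add_smul, add_mul, Finset.sum_add_distrib, Prod.mk_add_mk]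
      map_smul' := by
        intro c x
        simp only [Pi.smul_apply, smul_eq_mul, RingHom.id_apply, Prod.smul_mk, Finset.smul_sum,
          mul_smul, mul_assoc, Finset.mul_sum] }
  have hinj : Function.Injective (L.comp Φ) := by
    rw [← LinearMap.ker_eq_bot, LinearMap.ker_eq_bot']
    intro x hx
    by_contra hne
    have hpos := hΦ x hne
    have hx1 : ∑ i, Φ x i • q i = 0 := congrArg Prod.fst hx
    have hx2 : ∑ i, Φ x i * (3 / 2 - ‖q i‖ ^ 2) = 0 := congrArg Prod.snd hx
    rw [bform_expand, hx1] at hpos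
    have e : ∑ i, Φ x i * (3 / 2 - ‖q i‖ ^ 2) =
        3 / 2 * (∑ i, Φ x i) - ∑ i, Φ x i * ‖q i‖ ^ 2 := by
      rw [Finset.mul_sum, ← Finset.sum_sub_distrib]
      exact Finset.sum_congr rfl fun i _ => by ring
    rw [e] at hx2
    have hx3 : ∑ i, Φ x i * ‖q i‖ ^ 2 = 3 / 2 * (∑ i, Φ x i) := by linarith
    rw [hx3] at hpos
    simp only [norm_zero] at hpos
    nlinarith [sq_nonneg (∑ i, Φ x i)]
  have h1 := LinearMap.finrank_le_finrank_of_injective hinj
  have h2 : Module.finrank ℝ (EuclideanSpace ℝ (Fin d) × ℝ) = d + 1 := by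
    rw [Module.finrank_prod, finrank_euclideanSpace_fin, Module.finrank_self]
  omega

lemma sum_subtype_le {W : Type*} [Fintype W] (p : W → Prop) [DecidablePred p] (g : W → ℝ)
    (hg : ∀ w, 0 ≤ g w) : ∑ x : {x // p x}, g x ≤ ∑ x, g x := by
  rw [← Fintype.sum_subtype_add_sum_subtype p g]
  have : 0 ≤ ∑ x : {x // ¬ p x}, g x := Finset.sum_nonneg fun i _ => hg _
  linarith

lemma trip_comp_le {W V : Type*} [Fintype W] [DecidableEq W] [Fintype V] [DecidableEq V]
    (q : V → EuclideanSpace ℝ (Fin d)) (hq : ∀ i j, dist (q i) (q j) ≤ 1)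
    (f : W → V) (hf : Function.Injective f) : trip (q ∘ f) ≤ trip q := by
  have hs : ∀ g : V → ℝ, (∀ v, 0 ≤ g v) → ∑ w, g (f w) ≤ ∑ v, g v := by
    intro g hg
    have : ∑ w, g (f w) = ∑ v ∈ Finset.univ.map ⟨f, hf⟩, g v := by
      rw [Finset.sum_map]; rfl
    rw [this]
    exact Finset.sum_le_sum_of_subset_of_nonneg (Finset.subset_univ _) fun i _ _ => hg i
  have ham : ∀ i j, amat (q ∘ f) i j = amat q (f i) (f j) := by
    intro i j
    unfold amat
    by_cases h : i = j
    · simp [h]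
    · simp [h, hf.ne h]
  have hn := amat_nonneg q hq
  unfold trip
  simp only [ham]
  calc ∑ i, ∑ j, ∑ k, amat q (f i) (f j) * amat q (f j) (f k) * amat q (f k) (f i)
      ≤ ∑ i, ∑ j, ∑ k, amat q (f i) (f j) * amat q (f j) k * amat q k (f i) := by
        refine Finset.sum_le_sum fun i _ => Finset.sum_le_sum fun j _ => ?_
        exact hs (fun k => amat q (f i) (f j) * amat q (f j) k * amat q k (f i))
          fun k => mul_nonneg (mul_nonneg (hn _ _) (hn _ _)) (hn _ _)
    _ ≤ ∑ i, ∑ j, ∑ k, amat q (f i) j * amat q j k * amat q k (f i) := by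
        refine Finset.sum_le_sum fun i _ => ?_
        exact hs (fun j => ∑ k, amat q (f i) j * amat q j k * amat q k (f i))
          fun j => Finset.sum_nonneg fun k _ => mul_nonneg (mul_nonneg (hn _ _) (hn _ _)) (hn _ _)
    _ ≤ ∑ i, ∑ j, ∑ k, amat q i j * amat q j k * amat q k i := by
        exact hs (fun i => ∑ j, ∑ k, amat q i j * amat q j k * amat q k i)
          fun i => Finset.sum_nonneg fun j _ => Finset.sum_nonneg fun k _ =>
            mul_nonneg (mul_nonneg (hn _ _) (hn _ _)) (hn _ _)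

/-- The main inequality: number of odd components plus number of vertices. -/
theorem odd_add_card_le {W : Type*} [Fintype W] [DecidableEq W]
    (q : W → EuclideanSpace ℝ (Fin d)) (hq : ∀ i j, dist (q i) (q j) ≤ 1)
    (H : SimpleGraph W) (hH : ∀ i j, i ≠ j → ¬ H.Adj i j → dist (q i) (q j) = 1) :
    (H.oddComponents.ncard : ℝ) + Fintype.card W ≤ 2 * (d + 1) + trip q := by
  classical
  let C := H.ConnectedComponent
  let cf : W → C := H.connectedComponentMk
  let Dc : C → Type _ := fun c => {w // cf w = c}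
  let qc : (c : C) → Dc c → EuclideanSpace ℝ (Fin d) := fun c w => q w.1
  have hqc : ∀ c (i j : Dc c), dist (qc c i) (qc c j) ≤ 1 := fun c i j => hq _ _
  have hex : ∀ c : C, ∃ (m : ℕ) (Φ : (Fin m → ℝ) →ₗ[ℝ] (Dc c → ℝ)),
      (∀ x, x ≠ 0 → 0 < bform (qc c) (Φ x)) ∧
      (Fintype.card (Dc c) : ℝ) ≤ 2 * m + trip (qc c) / 2 := by
    intro c
    obtain ⟨m, Φ, h1, h2⟩ := exists_pos_map (amat (qc c))
      (by
        ext i j
        simp only [Matrix.conjTranspose_apply, star_trivial]
        exact amat_symm (qc c) j i)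
      (fun i => by simp [amat]) (amat_nonneg (qc c) (hqc c))
      (fun z hz => by
        rw [← bform_eq_amat]
        exact bform_nonneg _ _ hz)
    refine ⟨m, Φ, fun x hx => ?_, ?_⟩
    · rw [bform_eq_amat]
      exact h1 x hx
    · rw [trip_eq_trace]
      exact h2
  choose m Φ hΦ hm using hex
  -- global map
  let Ψ : ((c : C) → (Fin (m c) → ℝ)) →ₗ[ℝ] (W → ℝ) :=
    { toFun := fun x w => Φ (cf w) (x (cf w)) ⟨w, rfl⟩
      map_add' := by
        intro x y; ext w; simp
      map_smul' := by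
        intro a x; ext w; simp }
  have hΨ : ∀ x, bform q (Ψ x) = ∑ c, bform (qc c) (Φ c (x c)) := by
    intro x
    have hval : ∀ (c : C) (w : Dc c), Ψ x w.1 = Φ c (x c) w := by
      rintro c ⟨w, rfl⟩
      rfl
    unfold bform
    have e1 : ∀ g : W → ℝ, ∑ w, g w = ∑ c, ∑ w : Dc c, g w.1 := by
      intro g
      rw [← (Equiv.sigmaFiberEquiv cf).sum_comp g, Fintype.sum_sigma]
      rfl
    rw [e1]
    refine Finset.sum_congr rfl fun c _ => ?_
    refine Finset.sum_congr rfl fun i _ => ?_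
    rw [e1]
    rw [Finset.sum_eq_single c]
    · refine Finset.sum_congr rfl fun j _ => ?_
      rw [hval, hval]
    · intro c' _ hc'
      refine Finset.sum_eq_zero fun j _ => ?_
      have hne : i.1 ≠ j.1 := by
        intro h
        apply hc'
        rw [← j.2, ← i.2, h]
      have hnadj : ¬ H.Adj i.1 j.1 := by
        intro h
        apply hc'
        rw [← j.2, ← i.2]
        exact (SimpleGraph.ConnectedComponent.connectedComponentMk_eq_of_adj h).symm
      rw [hH _ _ hne hnadj]
      ring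
    · intro h
      exact absurd (Finset.mem_univ _) h
  have hfr := finrank_le q Ψ (fun x hx => by
    rw [hΨ]
    obtain ⟨c, hc⟩ : ∃ c, x c ≠ 0 := by
      by_contra hall
      push Not at hall
      exact hx (funext hall)
    refine Finset.sum_pos' (fun c' _ => ?_) ⟨c, Finset.mem_univ _, hΦ c _ hc⟩
    by_cases h : x c' = 0
    · rw [h, map_zero]
      simp [bform]
    · exact (hΦ c' _ h).le)
  have hfr2 : Module.finrank ℝ ((c : C) → (Fin (m c) → ℝ)) = ∑ c, m c := by
    rw [Module.finrank_pi_fintype]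
    simp
  rw [hfr2] at hfr
  have hfr3 : (∑ c, (m c : ℝ)) ≤ d + 1 := by exact_mod_cast hfr
  -- card
  have hcard : (Fintype.card W : ℝ) = ∑ c, (Fintype.card (Dc c) : ℝ) := by
    have : Fintype.card W = ∑ c, Fintype.card (Dc c) := by
      rw [← Fintype.card_sigma]
      exact (Fintype.card_congr (Equiv.sigmaFiberEquiv cf)).symm
    exact_mod_cast this
  have htn : ∀ c, 0 ≤ trip (qc c) := by
    intro c
    have hn := amat_nonneg (qc c) (hqc c)
    exact Finset.sum_nonneg fun i _ => Finset.sum_nonneg fun j _ => Finset.sum_nonneg fun k _ =>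
      mul_nonneg (mul_nonneg (hn _ _) (hn _ _)) (hn _ _)
  have hodd : (H.oddComponents.ncard : ℝ) = ∑ c : C, (if Odd (Fintype.card (Dc c)) then 1 else 0) := by
    rw [Set.ncard_eq_toFinset_card']
    rw [Finset.sum_ite, Finset.sum_const, Finset.sum_const_zero, add_zero, nsmul_eq_mul, mul_one]
    congr 2
    ext c
    simp only [Set.mem_toFinset, Set.mem_setOf_eq, Finset.mem_filter, Finset.mem_univ, true_and]
    have : c.supp.ncard = Fintype.card (Dc c) := by
      rw [← Nat.card_coe_set_eq, Nat.card_eq_fintype_card]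
      apply Fintype.card_congr
      exact Equiv.refl _
    rw [this]
  have hT : ∑ c, trip (qc c) ≤ trip q := by
    have hn := amat_nonneg q hq
    have e1 : ∀ g : W → ℝ, ∑ w, g w = ∑ c, ∑ w : Dc c, g w.1 := by
      intro g
      rw [← (Equiv.sigmaFiberEquiv cf).sum_comp g, Fintype.sum_sigma]
      rfl
    have ham : ∀ c (i j : Dc c), amat (qc c) i j = amat q i.1 j.1 := by
      intro c i j
      unfold amat
      by_cases h : i = j
      · simp [h]
      · have h' : i.1 ≠ j.1 := fun h' => h (Subtype.ext h')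
        simp [h, h', qc]
    unfold trip
    rw [e1]
    refine Finset.sum_le_sum fun c _ => Finset.sum_le_sum fun i _ => ?_
    simp only [ham]
    calc ∑ j : Dc c, ∑ k : Dc c, amat q i.1 j.1 * amat q j.1 k.1 * amat q k.1 i.1
        ≤ ∑ j : Dc c, ∑ k : W, amat q i.1 j.1 * amat q j.1 k * amat q k i.1 := by
          refine Finset.sum_le_sum fun j _ => ?_
          exact sum_subtype_le (fun w => cf w = c)
            (fun k => amat q i.1 j.1 * amat q j.1 k * amat q k i.1)
            fun k => mul_nonneg (mul_nonneg (hn _ _) (hn _ _)) (hn _ _)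
      _ ≤ ∑ j : W, ∑ k : W, amat q i.1 j * amat q j k * amat q k i.1 := by
          exact sum_subtype_le (fun w => cf w = c)
            (fun j => ∑ k : W, amat q i.1 j * amat q j k * amat q k i.1)
            fun j => Finset.sum_nonneg fun k _ => mul_nonneg (mul_nonneg (hn _ _) (hn _ _)) (hn _ _)
  rw [hodd, hcard, ← Finset.sum_add_distrib]
  have hterm : ∀ c, ((if Odd (Fintype.card (Dc c)) then (1 : ℝ) else 0) +
      (Fintype.card (Dc c) : ℝ)) ≤ 2 * m c + trip (qc c) := by
    intro c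
    have h1 := hm c
    have h2 := htn c
    split_ifs with ho
    · by_cases ht : trip (qc c) / 2 < 1
      · have h3 : (Fintype.card (Dc c) : ℝ) < 2 * m c + 1 := by linarith
        have h4 : Fintype.card (Dc c) < 2 * m c + 1 := by exact_mod_cast h3
        have h5 : Fintype.card (Dc c) + 1 ≤ 2 * m c := by
          obtain ⟨k, hk⟩ := ho
          omega
        have h6 : (Fintype.card (Dc c) : ℝ) + 1 ≤ 2 * m c := by exact_mod_cast h5
        linarith
      · linarith
    · linarith
  calc ∑ c, ((if Odd (Fintype.card (Dc c)) then (1 : ℝ) else 0) + (Fintype.card (Dc c) : ℝ))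
      ≤ ∑ c, (2 * (m c : ℝ) + trip (qc c)) := Finset.sum_le_sum fun c _ => hterm c
    _ = 2 * ∑ c, (m c : ℝ) + ∑ c, trip (qc c) := by
        rw [Finset.sum_add_distrib, Finset.mul_sum]
    _ ≤ 2 * (d + 1) + trip q := by linarith

end Borsuk22
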