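import Pool.Agent.Borsuk22.Geometry

/-!
# Colouring the diameter graph through a perfect matching
-/

namespace Borsuk22

open Finset

variable {d : ℕ}

lemma trip_nonneg {ι : Type*} [Fintype ι] [DecidableEq ι] (q : ι → EuclideanSpace ℝ (Fin d))
    (hq : ∀ i j, dist (q i) (q j) ≤ 1) : 0 ≤ trip q := by
  have hn := amat_nonneg q hq
  exact Finset.sum_nonneg fun i _ => Finset.sum_nonneg fun j _ => Finset.sum_nonneg fun k _ =>
    mul_nonneg (mul_nonneg (hn _ _) (hn _ _)) (hn _ _)

/-- number of odd components plus number of vertices, integer form -/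
theorem odd_add_card_le_nat {W : Type*} [Fintype W] [DecidableEq W]
    (q : W → EuclideanSpace ℝ (Fin d)) (hq : ∀ i j, dist (q i) (q j) ≤ 1)
    (H : SimpleGraph W) (hH : ∀ i j, i ≠ j → ¬ H.Adj i j → dist (q i) (q j) = 1)
    (t : ℝ) (ht : trip q ≤ t) :
    H.oddComponents.ncard + Fintype.card W ≤ 2 * (d + 1 + ⌊t / 2⌋₊) := by
  have h1 := odd_add_card_le q hq H hH
  have hpar : Even (H.oddComponents.ncard + Fintype.card W) := by
    have h2 := H.odd_ncard_oddComponents
    rw [Nat.card_eq_fintype_card] at h2
    rw [Nat.even_add]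
    constructor
    · intro h
      by_contra hc
      rw [Nat.not_even_iff_odd] at hc
      exact (Nat.not_even_iff_odd.mpr (h2.mpr hc)) h
    · intro h
      by_contra hc
      rw [Nat.not_even_iff_odd] at hc
      exact (Nat.not_even_iff_odd.mpr (h2.mp hc)) h
  obtain ⟨k, hk⟩ := hpar
  have h3 : (k : ℝ) ≤ d + 1 + t / 2 := by
    have : ((H.oddComponents.ncard + Fintype.card W : ℕ) : ℝ) = (k : ℝ) + k := by
      rw [hk]; push_cast; ring
    push_cast at this
    linarith
  have h4 : k ≤ d + 1 + ⌊t / 2⌋₊ := by
    by_cases hkd : k ≤ d + 1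
    · omega
    · push Not at hkd
      have h5 : ((k - (d + 1) : ℕ) : ℝ) ≤ t / 2 := by
        rw [Nat.cast_sub hkd.le]
        push_cast
        linarith
      have h6 := Nat.le_floor h5
      omega
  omega

theorem exists_coloring {V : Type*} [Fintype V] [DecidableEq V]
    (q : V → EuclideanSpace ℝ (Fin d)) (hq : ∀ i j, dist (q i) (q j) ≤ 1)
    (t : ℝ) (ht : trip q ≤ t) :
    ∃ c : V → Fin (d + 1 + ⌊t / 2⌋₊), ∀ i j, i ≠ j → c i = c j → dist (q i) (q j) < 1 := by
  classical
  set N := d + 1 + ⌊t / 2⌋₊ with hN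
  have hcardV : Fintype.card V ≤ 2 * N := by
    have h := odd_add_card_le_nat q hq
      (SimpleGraph.mk (fun i j => i ≠ j ∧ dist (q i) (q j) < 1)
        ⟨fun i j h => ⟨h.1.symm, by rw [dist_comm]; exact h.2⟩⟩ ⟨fun i h => h.1 rfl⟩)
      (fun i j hij hn => by
        have : ¬ dist (q i) (q j) < 1 := fun h => hn ⟨hij, h⟩
        exact le_antisymm (hq i j) (not_lt.mp this)) t ht
    omega
  set D := 2 * N - Fintype.card V with hD
  let G : SimpleGraph (V ⊕ Fin D) :=
    SimpleGraph.mk (fun x y => x ≠ y ∧ ∀ a b, x = Sum.inl a → y = Sum.inl b →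
        dist (q a) (q b) < 1)
      ⟨fun x y h => ⟨h.1.symm, fun a b ha hb => by rw [dist_comm]; exact h.2 b a hb ha⟩⟩
      ⟨fun x h => h.1 rfl⟩
  have hcardU : Fintype.card (V ⊕ Fin D) = 2 * N := by
    rw [Fintype.card_sum, Fintype.card_fin]
    omega
  have hnv : ∀ u : Set (V ⊕ Fin D), ¬ G.IsTutteViolator u := by
    intro u hu
    unfold SimpleGraph.IsTutteViolator at hu
    set H := ((⊤ : G.Subgraph).deleteVerts u).coe with hHdef
    have hverts : ((⊤ : G.Subgraph).deleteVerts u).verts = uᶜ := by
      ext x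
      simp
    have hcardW : Fintype.card ((⊤ : G.Subgraph).deleteVerts u).verts + u.ncard = 2 * N := by
      rw [← hcardU, ← Nat.card_eq_fintype_card, ← Nat.card_eq_fintype_card,
        Nat.card_coe_set_eq, hverts]
      have := Set.ncard_add_ncard_compl u
      omega
    have hnu : ∀ x : ((⊤ : G.Subgraph).deleteVerts u).verts, x.1 ∉ u := by
      intro x
      have hx : x.1 ∈ uᶜ := hverts ▸ x.2
      exact hx
    have hadj : ∀ x y : ((⊤ : G.Subgraph).deleteVerts u).verts, G.Adj x.1 y.1 → H.Adj x y := by
      intro x y hxy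
      rw [hHdef, SimpleGraph.Subgraph.coe_adj, SimpleGraph.Subgraph.deleteVerts_adj]
      exact ⟨trivial, hnu x, trivial, hnu y, hxy⟩
    by_cases hall : ∃ i : Fin D, (Sum.inr i : V ⊕ Fin D) ∉ u
    · -- a universal vertex survives
      obtain ⟨i, hi⟩ := hall
      have hmem : (Sum.inr i : V ⊕ Fin D) ∈ ((⊤ : G.Subgraph).deleteVerts u).verts := by
        rw [hverts]; exact hi
      set r : ((⊤ : G.Subgraph).deleteVerts u).verts := ⟨Sum.inr i, hmem⟩ with hr
      have hconn : ∀ x, H.Reachable r x := by
        intro x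
        by_cases hx : x = r
        · rw [hx]
        · apply SimpleGraph.Adj.reachable
          apply hadj
          refine ⟨fun h => hx (Subtype.ext h.symm), ?_⟩
          intro a b ha
          exact absurd ha (by simp [hr])
      have hsub : ∀ c c' : H.ConnectedComponent, c = c' := by
        intro c c'
        induction c using SimpleGraph.ConnectedComponent.ind with
        | _ v =>
          induction c' using SimpleGraph.ConnectedComponent.ind with
          | _ w =>
            exact SimpleGraph.ConnectedComponent.sound ((hconn v).symm.trans (hconn w))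
      have hle1 : H.oddComponents.ncard ≤ 1 := by
        rw [Set.ncard_le_one]
        intro a _ b _
        exact hsub a b
      rcases Nat.eq_zero_or_pos u.ncard with h0 | hpos
      · have hpar := H.odd_ncard_oddComponents
        rw [Nat.card_eq_fintype_card] at hpar
        have hev : ¬ Odd (Fintype.card ((⊤ : G.Subgraph).deleteVerts u).verts) := by
          rw [Nat.not_odd_iff_even]
          rw [h0, add_zero] at hcardW
          exact ⟨N, by omega⟩
        have hodd1 : H.oddComponents.ncard = 1 := by omega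
        exact hev (hpar.mp (by rw [hodd1]; exact odd_one))
      · omega
    · -- all the extra vertices are deleted
      push Not at hall
      have hex : ∀ x : ((⊤ : G.Subgraph).deleteVerts u).verts, ∃ a : V, x.1 = Sum.inl a := by
        intro x
        have hx := hnu x
        rcases hxx : x.1 with a | i
        · exact ⟨a, rfl⟩
        · exact absurd (hall i) (by rw [← hxx]; exact hx)
      choose f hf using hex
      have hfinj : Function.Injective f := by
        intro x y hxy
        apply Subtype.ext
        rw [hf x, hf y, hxy]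
      have h := odd_add_card_le_nat (q ∘ f) (fun i j => hq _ _) H
        (fun x y hxy hn => by
          have hnG : ¬ G.Adj x.1 y.1 := fun h => hn (hadj x y h)
          have : ¬ dist (q (f x)) (q (f y)) < 1 := by
            intro hlt
            apply hnG
            refine ⟨fun h => hxy (Subtype.ext h), ?_⟩
            intro a b ha hb
            rw [hf x] at ha
            rw [hf y] at hb
            rw [← Sum.inl_injective ha, ← Sum.inl_injective hb]
            exact hlt
          exact le_antisymm (hq _ _) (not_lt.mp this)) t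
        ((trip_comp_le q hq f hfinj).trans ht)
      omega
  obtain ⟨M, hM⟩ := SimpleGraph.tutte.mpr hnv
  -- number of edges of the matching
  have hedge : M.spanningCoe.edgeFinset.card = N := by
    have h1 := M.spanningCoe.sum_degrees_eq_twice_card_edges
    have h2 : ∀ v, M.spanningCoe.degree v = 1 := by
      intro v
      have := (SimpleGraph.Subgraph.isPerfectMatching_iff_forall_degree.mp hM) v
      rw [SimpleGraph.Subgraph.degree_spanningCoe]
      exact this
    simp only [h2, Finset.sum_const, Finset.card_univ, smul_eq_mul, mul_one] at h1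
    rw [hcardU] at h1
    omega
  have hcardE : Fintype.card M.edgeSet = N := by
    rw [← hedge, ← SimpleGraph.card_edgeSet]
    apply Fintype.card_congr
    exact Equiv.setCongr (SimpleGraph.Subgraph.edgeSet_spanningCoe M).symm
  let e : M.edgeSet ≃ Fin N := Fintype.equivFinOfCardEq hcardE
  refine ⟨fun v => e (hM.1.toEdge ⟨Sum.inl v, hM.2 _⟩), ?_⟩
  intro i j hij hc
  have hc' : hM.1.toEdge ⟨Sum.inl i, hM.2 _⟩ = hM.1.toEdge ⟨Sum.inl j, hM.2 _⟩ := e.injective hc
  have hi : (Sum.inl i : V ⊕ Fin D) ∈ (hM.1.toEdge ⟨Sum.inl i, hM.2 _⟩ : Sym2 (V ⊕ Fin D)) :=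
    hM.1.mem_coe_toEdge _
  have hj : (Sum.inl j : V ⊕ Fin D) ∈ (hM.1.toEdge ⟨Sum.inl i, hM.2 _⟩ : Sym2 (V ⊕ Fin D)) := by
    rw [hc']
    exact hM.1.mem_coe_toEdge _
  have hne : (Sum.inl i : V ⊕ Fin D) ≠ Sum.inl j := fun h => hij (Sum.inl_injective h)
  have hs := (Sym2.mem_and_mem_iff hne).mp ⟨hi, hj⟩
  have hmem : s((Sum.inl i : V ⊕ Fin D), Sum.inl j) ∈ M.edgeSet := by
    rw [← hs]
    exact (hM.1.toEdge ⟨Sum.inl i, hM.2 _⟩).2
  have hMadj : M.Adj (Sum.inl i) (Sum.inl j) := hmem
  exact hMadj.adj_sub.2 i j rfl rfl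

end Borsuk22
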