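import Mathlib

/-!
# A spectral lemma for nonnegative symmetric matrices

`A` is a symmetric real matrix with zero diagonal and nonnegative entries such that `1 + A` is
positive semidefinite on the hyperplane of vectors with coordinate sum zero.  Then `1 + A` is
positive definite on a subspace of dimension `m` with `n ≤ 2 m + tr (A ^ 3) / 2`.
-/

namespace Borsuk22

open Matrix Finset

variable {D : Type*} [Fintype D] [DecidableEq D]

/-- Diagonalisation in the form used below. -/
lemma exists_diag (A : Matrix D D ℝ) (hA : A.IsHermitian) :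
    ∃ (ev : D → ℝ) (U : Matrix D D ℝ), Uᵀ * U = 1 ∧ U * Uᵀ = 1 ∧
      A = U * diagonal ev * Uᵀ := by
  refine ⟨hA.eigenvalues, (hA.eigenvectorUnitary : Matrix D D ℝ), ?_, ?_, ?_⟩
  · have := Unitary.coe_star_mul_self hA.eigenvectorUnitary
    simpa [Matrix.star_eq_conjTranspose] using this
  · have := Unitary.coe_mul_star_self hA.eigenvectorUnitary
    simpa [Matrix.star_eq_conjTranspose] using this
  · have h := hA.spectral_theorem
    rw [Unitary.conjStarAlgAut_apply] at h
    refine h.trans ?_
    congr 1

lemma trace_diag {A U : Matrix D D ℝ} {ev : D → ℝ} (h1 : Uᵀ * U = 1)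
    (h : A = U * diagonal ev * Uᵀ) : A.trace = ∑ i, ev i := by
  rw [h, Matrix.trace_mul_comm, ← Matrix.mul_assoc, h1, Matrix.one_mul, Matrix.trace_diagonal]

lemma trace_cube {A U : Matrix D D ℝ} {ev : D → ℝ} (h1 : Uᵀ * U = 1)
    (h : A = U * diagonal ev * Uᵀ) : (A * A * A).trace = ∑ i, ev i ^ 3 := by
  have h3 : A * A * A = U * diagonal (fun i => ev i ^ 3) * Uᵀ := by
    rw [h]
    have e : U * diagonal ev * Uᵀ * (U * diagonal ev * Uᵀ) * (U * diagonal ev * Uᵀ) =
        U * (diagonal ev * (Uᵀ * U) * diagonal ev * (Uᵀ * U) * diagonal ev) * Uᵀ := by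
      simp only [Matrix.mul_assoc]
    rw [e, h1, Matrix.mul_one, Matrix.mul_one, Matrix.diagonal_mul_diagonal,
      Matrix.diagonal_mul_diagonal]
    congr 3
    ext i
    ring
  exact trace_diag h1 h3

lemma dot_mulVec_self {U : Matrix D D ℝ} (h1 : Uᵀ * U = 1) (x y : D → ℝ) :
    (U *ᵥ x) ⬝ᵥ (U *ᵥ y) = x ⬝ᵥ y := by
  rw [Matrix.dotProduct_mulVec, Matrix.vecMul_mulVec, h1]
  simp

lemma quad_diag {A U : Matrix D D ℝ} {ev : D → ℝ} (h1 : Uᵀ * U = 1)
    (h : A = U * diagonal ev * Uᵀ) (x : D → ℝ) :
    (U *ᵥ x) ⬝ᵥ (A *ᵥ (U *ᵥ x)) = ∑ i, ev i * x i ^ 2 := by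
  have : A *ᵥ (U *ᵥ x) = U *ᵥ (diagonal ev *ᵥ x) := by
    rw [h, Matrix.mulVec_mulVec, Matrix.mulVec_mulVec]
    congr 1
    rw [Matrix.mul_assoc, h1, Matrix.mul_one]
  rw [this, dot_mulVec_self h1]
  simp only [dotProduct, Matrix.mulVec_diagonal]
  refine Finset.sum_congr rfl fun i _ => ?_
  ring

/-- Perron: for a nonnegative symmetric matrix, every negative eigenvalue is dominated by a
positive one. -/
lemma exists_ge_neg {A U : Matrix D D ℝ} {ev : D → ℝ} (h1 : Uᵀ * U = 1) (h2 : U * Uᵀ = 1)
    (h : A = U * diagonal ev * Uᵀ) (hnn : ∀ i j, 0 ≤ A i j) (j : D) :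
    ∃ i, -ev j ≤ ev i := by
  classical
  by_contra hcon
  push Not at hcon
  set v : D → ℝ := U *ᵥ (Pi.single j 1) with hv
  have hvA : v ⬝ᵥ (A *ᵥ v) = ev j := by
    rw [hv, quad_diag h1 h]
    simp [Pi.single_apply]
  have hvv : v ⬝ᵥ v = 1 := by
    rw [hv, dot_mulVec_self h1]
    simp
  set w : D → ℝ := fun i => |v i| with hw
  have hww : w ⬝ᵥ w = 1 := by
    rw [← hvv]
    simp only [dotProduct, hw, abs_mul_abs_self]
  have hwA : -ev j ≤ w ⬝ᵥ (A *ᵥ w) := by
    rw [← hvA]
    simp only [dotProduct, mulVec, Finset.mul_sum, ← Finset.sum_neg_distrib]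
    refine Finset.sum_le_sum fun i _ => Finset.sum_le_sum fun k _ => ?_
    have h3 : -(v i * (A i k * v k)) ≤ |v i * (A i k * v k)| := neg_le_abs _
    rw [abs_mul, abs_mul, abs_of_nonneg (hnn i k)] at h3
    exact h3
  -- expand in eigenbasis
  have hwU : w = U *ᵥ (Uᵀ *ᵥ w) := by
    rw [Matrix.mulVec_mulVec, h2, Matrix.one_mulVec]
  set x := Uᵀ *ᵥ w with hx
  have hxx : ∑ i, x i ^ 2 = 1 := by
    have : x ⬝ᵥ x = 1 := by
      rw [← dot_mulVec_self h1 x x, ← hwU, hww]
    rw [← this]
    simp only [dotProduct]
    exact Finset.sum_congr rfl fun i _ => by ring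
  have hq : w ⬝ᵥ (A *ᵥ w) = ∑ i, ev i * x i ^ 2 := by
    conv_lhs => rw [hwU]
    exact quad_diag h1 h x
  have hlt : ∑ i, ev i * x i ^ 2 < ∑ i, (-ev j) * x i ^ 2 := by
    have hne : ∃ i, x i ≠ 0 := by
      by_contra hall
      push Not at hall
      simp [hall] at hxx
    obtain ⟨i, hi⟩ := hne
    refine Finset.sum_lt_sum (fun k _ => ?_) ⟨i, Finset.mem_univ i, ?_⟩
    · exact mul_le_mul_of_nonneg_right (hcon k).le (sq_nonneg _)
    · exact mul_lt_mul_of_pos_right (hcon i) (by positivity)
  rw [← Finset.mul_sum, hxx, mul_one] at hlt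
  linarith

/-- The spectral lemma. -/
theorem exists_pos_map (A : Matrix D D ℝ) (hA : A.IsHermitian) (hdiag : ∀ i, A i i = 0)
    (hnn : ∀ i j, 0 ≤ A i j)
    (hneg : ∀ z : D → ℝ, ∑ i, z i = 0 → 0 ≤ z ⬝ᵥ z + z ⬝ᵥ (A *ᵥ z)) :
    ∃ (m : ℕ) (Φ : (Fin m → ℝ) →ₗ[ℝ] (D → ℝ)),
      (∀ x, x ≠ 0 → 0 < Φ x ⬝ᵥ Φ x + Φ x ⬝ᵥ (A *ᵥ Φ x)) ∧
      (Fintype.card D : ℝ) ≤ 2 * m + (A * A * A).trace / 2 := by
  classical
  obtain ⟨ev, U, h1, h2, h⟩ := exists_diag A hA
  set P : Finset D := univ.filter fun i => -1 < ev i with hP
  set Z : Finset D := univ.filter fun i => ev i = -1 with hZ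
  set N : Finset D := univ.filter fun i => ev i < -1 with hN
  -- the map
  let e : P ≃ Fin P.card := P.equivFin
  let ext : (Fin P.card → ℝ) →ₗ[ℝ] (D → ℝ) :=
    { toFun := fun x i => if hi : i ∈ P then x (e ⟨i, hi⟩) else 0
      map_add' := by
        intro x y
        ext i
        by_cases hi : i ∈ P <;> simp [hi]
      map_smul' := by
        intro c x
        ext i
        by_cases hi : i ∈ P <;> simp [hi] }
  refine ⟨P.card, U.mulVecLin.comp ext, ?_, ?_⟩
  · intro x hx
    simp only [LinearMap.comp_apply, Matrix.mulVecLin_apply]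
    rw [dot_mulVec_self h1, quad_diag h1 h]
    have e1 : ext x ⬝ᵥ ext x + ∑ i, ev i * ext x i ^ 2 = ∑ i, (1 + ev i) * ext x i ^ 2 := by
      simp only [dotProduct]
      rw [← Finset.sum_add_distrib]
      exact Finset.sum_congr rfl fun i _ => by ring
    rw [e1]
    obtain ⟨k, hk⟩ : ∃ k, x k ≠ 0 := by
      by_contra hall
      push Not at hall
      exact hx (funext hall)
    have hmem : ((e.symm k : P) : D) ∈ P := (e.symm k).2
    have hval : ext x ((e.symm k : P) : D) = x k := by
      simp [ext]
    refine Finset.sum_pos' (fun i _ => ?_) ⟨((e.symm k : P) : D), Finset.mem_univ _, ?_⟩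
    · by_cases hi : i ∈ P
      · have : -1 < ev i := by simpa [hP] using hi
        exact mul_nonneg (by linarith) (sq_nonneg _)
      · have : ext x i = 0 := by simp [ext, hi]
        simp [this]
    · rw [hval]
      have : -1 < ev ((e.symm k : P) : D) := (Finset.mem_filter.mp hmem).2
      have h5 : 0 < 1 + ev ((e.symm k : P) : D) := by linarith
      positivity
  · -- counting
    have htr : ∑ i, ev i = 0 := by
      rw [← trace_diag h1 h, Matrix.trace]
      simp [hdiag]
    have htr3 : (A * A * A).trace = ∑ i, ev i ^ 3 := trace_cube h1 h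
    have hcard : Fintype.card D = P.card + Z.card + N.card := by
      have hd1 : Disjoint P Z := by
        rw [Finset.disjoint_left]
        intro i hi hi'
        simp only [hP, hZ, Finset.mem_filter, Finset.mem_univ, true_and] at hi hi'
        linarith
      have hd2 : Disjoint (P ∪ Z) N := by
        rw [Finset.disjoint_left]
        intro i hi hi'
        simp only [hP, hZ, hN, Finset.mem_union, Finset.mem_filter, Finset.mem_univ,
          true_and] at hi hi'
        rcases hi with hi | hi <;> linarith
      rw [← Finset.card_union_of_disjoint hd1, ← Finset.card_union_of_disjoint hd2,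
        ← Finset.card_univ]
      congr 1
      ext i
      simp only [hP, hZ, hN, Finset.mem_union, Finset.mem_filter, Finset.mem_univ, true_and,
        true_iff]
      rcases lt_trichotomy (ev i) (-1) with h' | h' | h'
      · exact Or.inr h'
      · exact Or.inl (Or.inr h')
      · exact Or.inl (Or.inl h')
    -- the cubic
    set f : D → ℝ := fun i => ev i ^ 3 - 3 * ev i + 2 with hf
    have hfsum : ∑ i, f i = (A * A * A).trace + 2 * Fintype.card D := by
      simp only [hf, Finset.sum_add_distrib, Finset.sum_sub_distrib, ← Finset.mul_sum, htr,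
        ← htr3, Finset.sum_const, Finset.card_univ, nsmul_eq_mul]
      ring
    have hfP : ∀ i ∈ P, 0 ≤ f i := by
      intro i hi
      have : -1 < ev i := by simpa [hP] using hi
      have e2 : f i = (ev i - 1) ^ 2 * (ev i + 2) := by simp only [hf]; ring
      rw [e2]
      exact mul_nonneg (sq_nonneg _) (by linarith)
    have hfZ : ∀ i ∈ Z, f i = 4 := by
      intro i hi
      have : ev i = -1 := by simpa [hZ] using hi
      simp only [hf, this]
      norm_num
    -- at most one eigenvalue below -1
    have hN1 : N.card ≤ 1 := by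
      by_contra hc
      push Not at hc
      obtain ⟨a, ha, b, hb, hab⟩ := Finset.one_lt_card.mp hc
      have ha' : ev a < -1 := by simpa [hN] using ha
      have hb' : ev b < -1 := by simpa [hN] using hb
      set va : D → ℝ := U *ᵥ (Pi.single a 1) with hva
      set vb : D → ℝ := U *ᵥ (Pi.single b 1) with hvb
      obtain ⟨α, β, hαβ, hs⟩ : ∃ α β : ℝ, (α ≠ 0 ∨ β ≠ 0) ∧
          α * ∑ i, va i + β * ∑ i, vb i = 0 := by
        by_cases h0 : ∑ i, vb i = 0
        · exact ⟨0, 1, Or.inr one_ne_zero, by simp [h0]⟩
        · exact ⟨∑ i, vb i, -∑ i, va i, Or.inl h0, by ring⟩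
      set x : D → ℝ := fun i => α * (Pi.single a (1:ℝ) : D → ℝ) i +
        β * (Pi.single b (1:ℝ) : D → ℝ) i with hx
      have hUx : U *ᵥ x = fun i => α * va i + β * vb i := by
        have : x = α • (Pi.single a (1:ℝ) : D → ℝ) + β • (Pi.single b (1:ℝ) : D → ℝ) := by
          ext i; simp [hx]
        rw [this, Matrix.mulVec_add, Matrix.mulVec_smul, Matrix.mulVec_smul]
        ext i; simp [hva, hvb]
      have hz := hneg (U *ᵥ x) (by
        rw [hUx, Finset.sum_add_distrib, ← Finset.mul_sum, ← Finset.mul_sum]
        exact hs)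
      rw [dot_mulVec_self h1, quad_diag h1 h] at hz
      have e1 : x ⬝ᵥ x + ∑ i, ev i * x i ^ 2 = ∑ i, (1 + ev i) * x i ^ 2 := by
        simp only [dotProduct]
        rw [← Finset.sum_add_distrib]
        exact Finset.sum_congr rfl fun i _ => by ring
      rw [e1] at hz
      have hsub : ∑ i, (1 + ev i) * x i ^ 2 = ∑ i ∈ ({a, b} : Finset D),
          (1 + ev i) * x i ^ 2 := by
        symm
        refine Finset.sum_subset (Finset.subset_univ _) fun i _ hi => ?_
        simp only [Finset.mem_insert, Finset.mem_singleton, not_or] at hi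
        have : x i = 0 := by simp [hx, Pi.single_apply, hi.1, hi.2]
        simp [this]
      rw [hsub, Finset.sum_pair hab] at hz
      have hxa : x a = α := by simp [hx, Pi.single_apply, hab]
      have hxb : x b = β := by simp [hx, Pi.single_apply, hab.symm]
      rw [hxa, hxb] at hz
      rcases hαβ with hα | hβ
      · have : 0 < α ^ 2 := by positivity
        nlinarith [sq_nonneg β]
      · have : 0 < β ^ 2 := by positivity
        nlinarith [sq_nonneg α]
    rcases Nat.eq_zero_or_pos N.card with hN0 | hNpos
    · -- no eigenvalue below -1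
      have hge : (4 : ℝ) * Z.card ≤ ∑ i, f i := by
        have hfnn : ∀ i, 0 ≤ f i := by
          intro i
          have hi : i ∉ N := by
            rw [Finset.card_eq_zero] at hN0
            simp [hN0]
          have hi' : -1 ≤ ev i := by
            simp only [hN, Finset.mem_filter, Finset.mem_univ, true_and, not_lt] at hi
            exact hi
          have e2 : f i = (ev i - 1) ^ 2 * (ev i + 2) := by simp only [hf]; ring
          rw [e2]
          exact mul_nonneg (sq_nonneg _) (by linarith)
        calc (4 : ℝ) * Z.card = ∑ i ∈ Z, f i := by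
              rw [Finset.sum_congr rfl hfZ, Finset.sum_const, nsmul_eq_mul]; ring
          _ ≤ ∑ i, f i := Finset.sum_le_sum_of_subset_of_nonneg (Finset.subset_univ _)
              fun i _ _ => hfnn i
      rw [hfsum] at hge
      have hc' : (Fintype.card D : ℝ) = P.card + Z.card := by
        rw [hcard, hN0]; push_cast; ring
      rw [hc'] at hge ⊢
      linarith
    · have hN1' : N.card = 1 := le_antisymm hN1 hNpos
      obtain ⟨j, hj⟩ := Finset.card_eq_one.mp hN1'
      have hjm : ev j < -1 := by
        have : j ∈ N := by rw [hj]; exact Finset.mem_singleton_self j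
        simpa [hN] using this
      obtain ⟨i, hi⟩ := exists_ge_neg h1 h2 h hnn j
      have hiP : i ∈ P := by
        simp only [hP, Finset.mem_filter, Finset.mem_univ, true_and]
        linarith
      have hpair : 4 ≤ f i + f j := by
        simp only [hf]
        set s := ev i
        set l := -ev j with hl
        have hlj : ev j = -l := by rw [hl]; ring
        rw [hlj]
        have hl1 : 1 < l := by rw [hl]; linarith
        have hsl : l ≤ s := hi
        have h6 : 0 ≤ (s - l) * (s ^ 2 + s * l + l ^ 2 - 3) := by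
          apply mul_nonneg (by linarith)
          nlinarith
        nlinarith
      have hij : i ∉ Z ∪ {j} := by
        intro hmem
        simp only [Finset.mem_union, Finset.mem_singleton] at hmem
        rcases hmem with hmem | hmem
        · have : ev i = -1 := by simpa [hZ] using hmem
          linarith
        · rw [hmem] at hi; linarith
      have hjZ : j ∉ Z := by
        intro hmem
        have : ev j = -1 := by simpa [hZ] using hmem
        linarith
      have hge : (4 : ℝ) * Z.card + 4 ≤ ∑ i, f i := by
        have hsplit : ∑ k ∈ insert i (insert j Z), f k = f i + (f j + 4 * Z.card) := by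
          rw [Finset.sum_insert, Finset.sum_insert hjZ, Finset.sum_congr rfl hfZ,
            Finset.sum_const, nsmul_eq_mul]
          · ring
          · intro hmem
            apply hij
            simp only [Finset.mem_insert] at hmem
            simp only [Finset.mem_union, Finset.mem_singleton]
            tauto
        have hle : ∑ k ∈ insert i (insert j Z), f k ≤ ∑ k, f k := by
          refine Finset.sum_le_sum_of_subset_of_nonneg (Finset.subset_univ _) fun k _ hk => ?_
          have hkN : k ∉ N := by
            rw [hj, Finset.mem_singleton]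
            intro hkj
            apply hk
            simp [hkj]
          have hk' : -1 ≤ ev k := by
            simp only [hN, Finset.mem_filter, Finset.mem_univ, true_and, not_lt] at hkN
            exact hkN
          have e2 : f k = (ev k - 1) ^ 2 * (ev k + 2) := by simp only [hf]; ring
          rw [e2]
          exact mul_nonneg (sq_nonneg _) (by linarith)
        linarith
      rw [hfsum] at hge
      have hc' : (Fintype.card D : ℝ) = P.card + Z.card + 1 := by
        rw [hcard, hN1']; push_cast; ring
      rw [hc'] at hge ⊢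
      linarith

end Borsuk22
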